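import Pool.Agent.H159.LS.Fin2

/-! MP_ec2393_nt: any two linearly independent elements of the linearised double shuffle Lie algebra
generate a free Lie algebra of rank two; depths of brackets in `dm` add up unless the leading parts
are proportional. -/

set_option autoImplicit false

namespace Pool.Agent.Results.MP_ec2393_nt.FreePairs

open Pool.Agent.H777R4.DM Pool.Agent.H159.LS Pool.Agent.H159.LS.Fin2

theorem result :
    -- (1) the linearised double shuffle Lie algebra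
    (∀ ψ₁ ψ₂ : A, IsLS ψ₁ → IsLS ψ₂ → LinearIndependent ℚ ![ψ₁, ψ₂] → GenerateFree ψ₁ ψ₂) ∧
    -- (2) leading parts of elements of `dm`
    (∀ (ψ₁ ψ₂ : A) (r₁ r₂ : ℕ), IsDM ψ₁ → IsDM ψ₂ → ψ₁ ∈ D r₁ → ψ₂ ∈ D r₂ →
      IsLS (dpart r₁ ψ₁) ∧
      (LinearIndependent ℚ ![dpart r₁ ψ₁, dpart r₂ ψ₂] → GenerateFree (dpart r₁ ψ₁) (dpart r₂ ψ₂) ∧
        ihara ψ₁ ψ₂ ∈ D (r₁ + r₂) ∧
        dpart (r₁ + r₂) (ihara ψ₁ ψ₂) = ihara (dpart r₁ ψ₁) (dpart r₂ ψ₂) ∧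
        dpart (r₁ + r₂) (ihara ψ₁ ψ₂) ≠ 0)) :=
  ⟨free, lead⟩

end Pool.Agent.Results.MP_ec2393_nt.FreePairs
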