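import Pool.Agent.H159.LS.Fin2

/-! MP_ec2393_nt: subideals of Lie subalgebras of `dm` (or of the linearised double shuffle Lie
algebra) are large; they are not finitely generated. -/

set_option autoImplicit false

namespace Pool.Agent.Results.MP_ec2393_nt.LargeSubideals

open Pool.Agent.H777R4.DM Pool.Agent.H159.LS Pool.Agent.H159.LS.Fin2

theorem result :
    -- (1) depth quotients
    (∀ (M : Submodule ℚ A) (n : ℕ) (C : ℕ → Submodule ℚ A), Inside M → IsChain n C M →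
      ∀ (ψ : A) (r : ℕ), ψ ∈ C 0 → ψ ∈ D r → dpart r ψ ≠ 0 → ∀ k : ℕ,
        ¬ Module.Finite ℚ (M.map (D k).mkQ) → ¬ Module.Finite ℚ ((C 0).map (D (k + n * r)).mkQ)) ∧
    -- (2) generators
    (∀ (M : Submodule ℚ A) (n : ℕ) (C : ℕ → Submodule ℚ A), Inside M → IsChain n C M → C 0 ≠ ⊥ →
      (∃ k, ¬ Module.Finite ℚ (M.map (D k).mkQ)) →
      ∀ G : Finset A, C 0 ≠ gen G ∧ ¬ C 0 ≤ Submodule.span ℚ G ⊔
        Submodule.span ℚ {c | ∃ a ∈ C 0, ∃ b ∈ C 0, c = ihara a b}) :=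
  ⟨large, notgen⟩

end Pool.Agent.Results.MP_ec2393_nt.LargeSubideals
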