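import Pool.Agent.H777R4.DM.DMN
import Pool.Agent.Q187.ZD.Euler

/-!
# The double shuffle Lie algebra: one weight of the enveloping algebra controls all smaller ones

`m w` is the dimension of the part of weight `w` of the double shuffle Lie algebra, `l w` the one
of the free Lie algebra with one generator in each odd weight `≥ 3`. Let `envelope m N` be the
dimension of the part of weight `N` of the enveloping algebra. If it is `u N` (the number of ordered
sums of odd numbers `≥ 3` equal to `N`) for one `N`, then `m w = l w` for all `w ≤ N` with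
`N - w ∉ {1, 2, 4}`. So freeness with one generator in each odd weight `≥ 3` follows from infinitely
many weights of the enveloping algebra, or from an asymptotic equality along a sequence.
-/

set_option autoImplicit false

open Module

namespace Pool.Agent.Results.MP_ec2393_nt.OneWeightOfTheEnvelope

open Pool.Agent.H777R4.DM (A IsDM co co_add co_smul co_zero isDM_add isDM_smul isDM_zero)
open Pool.Agent.Q187.ZD.GT (IsOdd3)
open Pool.Agent.Q187.ZD.Eul

/-- the part of weight `w` of the double shuffle Lie algebra -/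
def dmw (w : ℕ) : Submodule ℚ A where
  carrier := {ψ | IsDM ψ ∧ ∀ u, co ψ u ≠ 0 → u.length = w}
  add_mem' := by
    rintro ψ φ ⟨h1, h2⟩ ⟨h3, h4⟩
    refine ⟨isDM_add h1 h3, fun u hu => ?_⟩
    rw [co_add] at hu
    by_cases h : co ψ u = 0
    · refine h4 u fun h' => hu ?_
      rw [h, h', add_zero]
    · exact h2 u h
  zero_mem' := ⟨isDM_zero, fun u hu => absurd (co_zero u) hu⟩
  smul_mem' := by
    rintro c ψ ⟨h1, h2⟩
    refine ⟨isDM_smul h1 c, fun u hu => h2 u fun h' => hu ?_⟩
    rw [co_smul, h', mul_zero]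

/-- the dimension of the part of weight `w` -/
noncomputable def m (w : ℕ) : ℕ := finrank ℚ (dmw w)

theorem result (l u : ℕ → ℕ) (hu : IsOdd3 u) (hl : HasEnvelope l u) (h : ∀ w, 1 ≤ w → l w ≤ m w) :
    (∀ N, envelope m N = u N → ∀ w, 1 ≤ w → w ≤ N → N - w ≠ 1 → N - w ≠ 2 → N - w ≠ 4 →
      m w = l w) ∧
    ((∀ w, 1 ≤ w → m w = l w) ↔ {N | envelope m N = u N}.Infinite) ∧
    ((∀ w, 1 ≤ w → m w = l w) ↔
      ∀ ε : ℝ, 0 < ε → ∀ N₀, ∃ N ≥ N₀, (envelope m N : ℝ) ≤ (1 + ε) * u N) ∧
    (∀ w N, 1 ≤ w → w ≤ N → u N + u (N - w) * (m w - l w) ≤ envelope m N) :=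
  ⟨fun _ hN _ hw hwN h1 h2 h4 => one_weight hl h hu hN hw hwN h1 h2 h4, infinite_iff hl h hu,
    liminf_iff hl h hu, fun _ _ hw hN => envelope_ge hl h hw hN⟩

end Pool.Agent.Results.MP_ec2393_nt.OneWeightOfTheEnvelope
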